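import Pool.Agent.H44.DU.Targets

/-!
# MP_81a758_an, board `du_modules`: [IN] leaves entering from outside reach the outside
-/

set_option autoImplicit false

namespace Pool.Agent.H1.DU.IN

open Pool.Agent.H44.DU

theorem pf_IN (h1 : T_NE) (h2 : T_K2) : T_IN := by
  intro n S t I ha hI s r c d hs hsr hcd h
  by_contra hcon
  push Not at hcon
  obtain ⟨N, hN⟩ := h2 n S t I ha hI
  obtain ⟨w, y, hw, hwI, hcy, hyd, hrun⟩ :=
    h1 n S t I r c d hcd (fun y hc hd => ⟨(h y hc hd).2, hcon y hc hd⟩) N
  have h3 := hN s (r :: w) y hs (h y hcy hyd).1 hwI (fun r' hr' => by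
    simp only [List.head?_cons, Option.mem_def, Option.some.injEq] at hr'
    rw [← hr']
    exact hsr) hrun
  rw [List.length_cons, hw] at h3
  omega

end Pool.Agent.H1.DU.IN
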